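import Mathlib

namespace Pool.Agent.Results.MP_fc66e6_co.Counter
open Finset

open Classical in
/-- Strong Roman dominating functions. -/
def IsStRDF {V : Type} [Fintype V] (G : SimpleGraph V) (f : V → ℕ) : Prop :=
  (∀ v, f v ≤ (G.maxDegree + 1) / 2 + 1) ∧
    ∀ v, f v = 0 → ∃ w, G.Adj v w ∧ 2 ≤ f w ∧
      1 + ({u | G.Adj w u ∧ f u = 0}.ncard + 1) / 2 ≤ f w

open Classical in
theorem general {V : Type} [Fintype V] (G : SimpleGraph V) (f : V → ℕ) (h : IsStRDF G f) :
    ∃ D : V → Prop, 2 * Fintype.card V ≤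
      2 * ∑ v, f v + ∑ v, if (∃! w, G.Adj v w ∧ D w) then 1 else 0 := by
  obtain ⟨D, hD⟩ : ∃ D : V → Prop,
      ∀ w, D w ↔ 1 + ({u | G.Adj w u ∧ f u = 0}.ncard + 1) / 2 ≤ f w := ⟨_, fun _ => Iff.rfl⟩
  refine ⟨D, ?_⟩
  have h1 : ∀ w, (if f w = 0 then 0 else 2) +
      ∑ v, (if D w ∧ G.Adj w v ∧ f v = 0 then 1 else 0) ≤ 2 * f w := by
    intro w
    by_cases hw : D w
    · have e : ∑ v, (if D w ∧ G.Adj w v ∧ f v = 0 then 1 else 0) =
          {u | G.Adj w u ∧ f u = 0}.ncard := by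
        rw [Set.ncard_eq_toFinset_card', Set.toFinset_setOf, Finset.card_filter]
        simp only [hw, true_and]
      rw [e]
      rw [hD] at hw
      split_ifs <;> omega
    · simp only [hw, false_and, if_false, Finset.sum_const_zero]
      split_ifs <;> omega
  have h2 : ∀ v, 2 ≤ (if f v = 0 then 0 else 2) +
      ∑ w, (if D w ∧ G.Adj w v ∧ f v = 0 then 1 else 0) +
      (if (∃! w, G.Adj v w ∧ D w) then 1 else 0) := by
    intro v
    by_cases hv : f v = 0
    · obtain ⟨w, a1, -, a2⟩ := h.2 v hv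
      rw [← hD] at a2
      rw [← Finset.card_filter]
      have hw : w ∈ univ.filter (fun w => D w ∧ G.Adj w v ∧ f v = 0) :=
        Finset.mem_filter.2 ⟨Finset.mem_univ _, a2, a1.symm, hv⟩
      by_cases hu : ∃! w, G.Adj v w ∧ D w
      · have := Finset.card_pos.2 ⟨w, hw⟩
        rw [if_pos hu]; omega
      · have : ∃ w', (G.Adj v w' ∧ D w') ∧ w' ≠ w := by
          by_contra hn
          push Not at hn
          exact hu ⟨w, ⟨a1, a2⟩, hn⟩
        obtain ⟨w', ⟨b1, b2⟩, b3⟩ := this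
        have := Finset.one_lt_card.2 ⟨w', Finset.mem_filter.2 ⟨Finset.mem_univ _, b2, b1.symm, hv⟩,
          w, hw, b3⟩
        omega
    · rw [if_neg hv]; omega
  have s1 := Finset.sum_le_sum (s := univ) (fun w _ => h1 w)
  have s2 := Finset.sum_le_sum (s := univ) (fun v _ => h2 v)
  rw [Finset.sum_add_distrib, Finset.sum_comm, ← Finset.mul_sum] at s1
  rw [Finset.sum_add_distrib, Finset.sum_add_distrib, Finset.sum_const, Finset.card_univ,
    smul_eq_mul] at s2
  omega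

def P (W : ℕ → Prop) (i x : ℕ) : Prop := ∃! a, W a ∧ a / 2 ^ i = x / 2 ^ i

open Classical in
noncomputable def g (W : ℕ → Prop) (r c : ℕ) : ℕ :=
  ∑ x ∈ Ico (c * 2 ^ r) ((c + 1) * 2 ^ r), ∑ i ∈ range (r + 1), if P W i x then 1 else 0

theorem blk {r c x : ℕ} (h : x ∈ Ico (c * 2 ^ r) ((c + 1) * 2 ^ r)) : x / 2 ^ r = c := by
  rw [Finset.mem_Ico] at h
  exact Nat.div_eq_of_lt_le h.1 h.2

theorem g0 (W : ℕ → Prop) (r c : ℕ) (h : ∀ a, W a → a / 2 ^ r ≠ c) : g W r c = 0 := by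
  unfold g
  refine Finset.sum_eq_zero fun x hx => Finset.sum_eq_zero fun i hi => if_neg ?_
  rintro ⟨a, ⟨h1, h2⟩, -⟩
  obtain ⟨k, rfl⟩ := Nat.exists_eq_add_of_le (Nat.lt_succ_iff.1 (Finset.mem_range.1 hi))
  refine h a h1 ?_
  rw [← blk hx, pow_add, ← Nat.div_div_eq_div_mul, ← Nat.div_div_eq_div_mul, h2]

theorem gle (W : ℕ → Prop) (r : ℕ) : ∀ c, g W r c ≤ 2 * 2 ^ r := by
  classical
  induction r with
  | zero =>
    intro c
    unfold g
    simp only [pow_zero, mul_one, Nat.Ico_succ_singleton, Finset.sum_singleton, zero_add,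
      Finset.range_one]
    split_ifs <;> omega
  | succ r ih =>
    intro c
    have hp : 0 < 2 ^ r := by positivity
    have e : g W (r + 1) c = g W r (2 * c) + g W r (2 * c + 1) +
        ∑ x ∈ Ico (c * 2 ^ (r + 1)) ((c + 1) * 2 ^ (r + 1)), if P W (r + 1) x then 1 else 0 := by
      unfold g
      rw [Finset.sum_Ico_consecutive _ (by nlinarith) (by nlinarith),
        show 2 * c * 2 ^ r = c * 2 ^ (r + 1) by ring,
        show (2 * c + 1 + 1) * 2 ^ r = (c + 1) * 2 ^ (r + 1) by ring, ← Finset.sum_add_distrib]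
      exact Finset.sum_congr rfl (fun x _ => Finset.sum_range_succ _ (r + 1))
    have i1 := ih (2 * c)
    have i2 := ih (2 * c + 1)
    rw [e, pow_succ 2 r] at *
    by_cases h : ∃ x ∈ Ico (c * (2 ^ r * 2)) ((c + 1) * (2 ^ r * 2)), P W (r + 1) x
    · obtain ⟨x, hx, a, ⟨a1, a2⟩, a3⟩ := h
      rw [← pow_succ] at hx
      have hx' := blk hx
      have l : ∑ x ∈ Ico (c * (2 ^ r * 2)) ((c + 1) * (2 ^ r * 2)),
          (if P W (r + 1) x then 1 else 0) ≤ 2 ^ r * 2 := by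
        rw [← Finset.card_filter]
        refine le_trans (Finset.card_filter_le _ _) ?_
        rw [Nat.card_Ico, Nat.add_mul]; omega
      have k : ∀ b, W b → b / 2 ^ r / 2 = c → b = a := fun b h1 h2 =>
        a3 b ⟨h1, by rw [hx', pow_succ, ← Nat.div_div_eq_div_mul, h2]⟩
      by_cases e' : a / 2 ^ r = 2 * c
      · have := g0 W r (2 * c + 1) (fun b h1 h2 => by
          have := k b h1 (by omega)
          rw [this] at h2; omega)
        omega
      · have := g0 W r (2 * c) (fun b h1 h2 => by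
          have := k b h1 (by omega)
          rw [this] at h2; omega)
        omega
    · push Not at h
      rw [Finset.sum_eq_zero (fun x hx => if_neg (h x hx))]
      omega

def Gr : SimpleGraph (Fin 512 ⊕ (Fin 10 × Fin 512)) where
  Adj
    | .inl a, .inr p => a.1 / 2 ^ p.1.1 = p.2.1 / 2 ^ p.1.1
    | .inr p, .inl a => a.1 / 2 ^ p.1.1 = p.2.1 / 2 ^ p.1.1
    | _, _ => False
  symm := ⟨by rintro (a | a) (b | b) h <;> exact h⟩
  loopless := ⟨by rintro (a | a) h <;> exact h⟩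

theorem conn : Gr.Connected := by
  have h1 : ∀ a, Gr.Reachable (.inr (9, 0)) (.inl a) := fun a =>
    SimpleGraph.Adj.reachable (show a.1 / 2 ^ 9 = 0 / 2 ^ 9 by have := a.2; omega)
  have h2 : ∀ v, Gr.Reachable (.inr (9, 0)) v := by
    rintro (a | ⟨i, x⟩)
    · exact h1 a
    · exact (h1 x).trans (SimpleGraph.Adj.reachable (show Gr.Adj (.inl x) (.inr (i, x)) from rfl))
  exact ⟨fun u v => (h2 u).symm.trans (h2 v)⟩

theorem result : ∃ (V : Type) (_ : Fintype V) (G : SimpleGraph V), G.Connected ∧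
    3 ≤ Fintype.card V ∧ ∀ f : V → ℕ, IsStRDF G f → 6 * Fintype.card V < 7 * ∑ v, f v := by
  classical
  have hc : Fintype.card (Fin 512 ⊕ (Fin 10 × Fin 512)) = 5632 := by simp
  refine ⟨_, inferInstance, Gr, conn, by omega, fun f hf => ?_⟩
  obtain ⟨D, hD⟩ := general Gr f hf
  have hg := gle (fun a => ∃ h : a < 512, D (.inl ⟨a, h⟩)) 9 0
  rw [Fintype.sum_sum_type (fun v => if (∃! w, Gr.Adj v w ∧ D w) then 1 else 0)] at hD
  have l1 : ∑ a : Fin 512, (if (∃! w, Gr.Adj (.inl a) w ∧ D w) then 1 else 0) ≤ 512 := by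
    rw [← Finset.card_filter]
    exact le_trans (Finset.card_filter_le _ _) (by simp)
  have l2 : ∑ p : Fin 10 × Fin 512, (if (∃! w, Gr.Adj (.inr p) w ∧ D w) then 1 else 0) ≤
      g (fun a => ∃ h : a < 512, D (.inl ⟨a, h⟩)) 9 0 := by
    unfold g
    rw [Fintype.sum_prod_type_right, show Ico (0 * 2 ^ 9) ((0 + 1) * 2 ^ 9) = range 512 by
      rw [Finset.range_eq_Ico]; rfl, Finset.sum_range]
    refine Finset.sum_le_sum fun x _ => ?_
    rw [Finset.sum_range]
    refine Finset.sum_le_sum fun i _ => ?_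
    split_ifs with h1 h2
    · rfl
    · exfalso
      obtain ⟨w, ⟨a1, a2⟩, a3⟩ := h1
      rcases w with a | p
      · refine h2 ⟨a.1, ⟨⟨a.2, a2⟩, a1⟩, ?_⟩
        rintro b ⟨⟨hb, b1⟩, b2⟩
        have := a3 (.inl ⟨b, hb⟩) ⟨b2, b1⟩
        exact congrArg Fin.val (Sum.inl.inj this)
      · exact a1
    · omega
    · rfl
  omega

end Pool.Agent.Results.MP_fc66e6_co.Counter
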